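import Mathlib
import Pool.Agent.Helper133.BULib

set_option autoImplicit false

/-!
# Mod two chains on products of simplicial complexes
-/

namespace Pool.Agent.R141.MT

open Finset Pool.Agent.Helper133.BU

variable {n : ℕ}

/-- pairs of finite sets -/
abbrev XX (n : ℕ) := Finset (Fin n) × Finset (Fin n)

/-- boundary of a mod two chain -/
def up1 (g : Finset (Fin n) → ZMod 2) (σ : Finset (Fin n)) : ZMod 2 := ∑ v ∈ σᶜ, g (insert v σ)

/-- boundary of a mod two chain of product cells -/
def up (c : XX n → ZMod 2) (x : XX n) : ZMod 2 :=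
  up1 (fun ρ => c (ρ, x.2)) x.1 + up1 (fun ρ => c (x.1, ρ)) x.2

theorem up1_add (g h : Finset (Fin n) → ZMod 2) (σ : Finset (Fin n)) :
    up1 (fun ρ => g ρ + h ρ) σ = up1 g σ + up1 h σ := by
  simp only [up1, sum_add_distrib]

theorem up1_zero (σ : Finset (Fin n)) : up1 (fun _ => (0 : ZMod 2)) σ = 0 := by
  simp [up1]

theorem up1_congr {g h : Finset (Fin n) → ZMod 2} {σ : Finset (Fin n)}
    (H : ∀ v, v ∉ σ → g (insert v σ) = h (insert v σ)) : up1 g σ = up1 h σ := by
  apply sum_congr rfl
  intro v hv
  exact H v (by simpa using hv)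

theorem up1_ne {g : Finset (Fin n) → ZMod 2} {σ : Finset (Fin n)} (h : up1 g σ ≠ 0) :
    ∃ v, v ∉ σ ∧ g (insert v σ) ≠ 0 := by
  obtain ⟨v, hv, h'⟩ := exists_ne_zero_of_sum_ne_zero h
  exact ⟨v, by simpa using hv, h'⟩

theorem up1_up1 (g : Finset (Fin n) → ZMod 2) (σ : Finset (Fin n)) : up1 (up1 g) σ = 0 := by
  unfold up1
  rw [sum_sigma']
  apply sum_involution (fun (x : (_ : Fin n) × Fin n) _ => (⟨x.2, x.1⟩ : (_ : Fin n) × Fin n))
  · rintro ⟨v, w⟩ _
    show g (insert w (insert v σ)) + g (insert v (insert w σ)) = 0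
    rw [insert_comm]
    exact z2_add_self _
  · rintro ⟨v, w⟩ h _ heq
    simp only [mem_sigma, mem_compl, mem_insert, not_or] at h
    have : w = v := congrArg Sigma.fst heq
    exact h.2.1 this
  · rintro ⟨v, w⟩ h
    simp only [mem_sigma, mem_compl, mem_insert, not_or] at h ⊢
    exact ⟨h.2.2, fun h' => h.2.1 h'.symm, h.1⟩
  · rintro ⟨v, w⟩ _
    rfl

theorem up1_comm (c : Finset (Fin n) → Finset (Fin n) → ZMod 2) (σ τ : Finset (Fin n)) :
    up1 (fun ρ => up1 (fun κ => c ρ κ) τ) σ = up1 (fun κ => up1 (fun ρ => c ρ κ) σ) τ := by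
  unfold up1
  exact sum_comm

theorem up_add (c e : XX n → ZMod 2) (x : XX n) :
    up (fun y => c y + e y) x = up c x + up e x := by
  unfold up
  rw [up1_add, up1_add]
  ring

theorem up_zero (x : XX n) : up (fun _ => (0 : ZMod 2)) x = 0 := by
  unfold up
  rw [up1_zero, up1_zero, add_zero]

theorem up_up (c : XX n → ZMod 2) (x : XX n) : up (up c) x = 0 := by
  obtain ⟨σ, τ⟩ := x
  unfold up
  simp only
  rw [up1_add, up1_add]
  have h1 : up1 (fun ρ => up1 (fun κ => c (κ, τ)) ρ) σ = 0 := up1_up1 (fun κ => c (κ, τ)) σ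
  have h2 : up1 (fun ρ => up1 (fun κ => c (σ, κ)) ρ) τ = 0 := up1_up1 (fun κ => c (σ, κ)) τ
  have h3 := up1_comm (fun ρ κ => c (ρ, κ)) σ τ
  rw [h1, h2, h3, zero_add, add_zero]
  exact z2_add_self _

theorem up_swap (c : XX n → ZMod 2) (x : XX n) : up (fun y => c y.swap) x = up c x.swap := by
  obtain ⟨σ, τ⟩ := x
  unfold up
  simp only [Prod.swap_prod_mk]
  rw [add_comm]

/-- both components nonempty -/
def NE (x : XX n) : Prop := x.1.Nonempty ∧ x.2.Nonempty

theorem up_congr {c e : XX n → ZMod 2} {x : XX n} (hx : NE x) (h : ∀ y, NE y → c y = e y) :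
    up c x = up e x := by
  unfold up
  congr 1
  · apply up1_congr
    intro v _
    exact h _ ⟨insert_nonempty _ _, hx.2⟩
  · apply up1_congr
    intro v _
    exact h _ ⟨hx.1, insert_nonempty _ _⟩

theorem up_ne {c : XX n → ZMod 2} {x : XX n} (h : up c x ≠ 0) :
    ∃ y : XX n, c y ≠ 0 ∧ x ≤ y ∧ y.1.card + y.2.card = x.1.card + x.2.card + 1 := by
  have h1 : up1 (fun ρ => c (ρ, x.2)) x.1 ≠ 0 ∨ up1 (fun ρ => c (x.1, ρ)) x.2 ≠ 0 := by
    by_contra hcon
    push Not at hcon
    exact h (by rw [up, hcon.1, hcon.2, add_zero])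
  rcases h1 with h1 | h1
  · obtain ⟨v, hv, h'⟩ := up1_ne h1
    exact ⟨_, h', ⟨subset_insert _ _, le_rfl⟩, by simp only [card_insert_of_notMem hv]; ring⟩
  · obtain ⟨v, hv, h'⟩ := up1_ne h1
    exact ⟨_, h', ⟨le_rfl, subset_insert _ _⟩, by simp only [card_insert_of_notMem hv]; ring⟩

/-- first projection -/
def pr (c : XX n → ZMod 2) (σ : Finset (Fin n)) : ZMod 2 := ∑ v, c (σ, {v})

theorem pr_up (c : XX n → ZMod 2) (σ : Finset (Fin n)) : pr (up c) σ = up1 (pr c) σ := by
  unfold pr up
  simp only
  rw [sum_add_distrib]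
  have h1 : ∑ v, up1 (fun ρ => c (ρ, {v})) σ = up1 (fun ρ => ∑ v, c (ρ, {v})) σ := by
    unfold up1
    rw [sum_comm]
  have h2 : ∑ v, up1 (fun ρ => c (σ, ρ)) {v} = 0 := by
    have := up1_up1 (fun ρ => c (σ, ρ)) ∅
    unfold up1 at this
    rw [compl_empty] at this
    simp only [insert_empty_eq] at this
    exact this
  rw [h1, h2, add_zero]

/-! ### the cone of a star -/

/-- supported on the cells of `N` with `k` vertices in all -/
def SN (L : Finset (Finset (Fin n))) (k : ℕ) (c : XX n → ZMod 2) : Prop :=
  ∀ x, NE x → c x ≠ 0 → x.1 ∪ x.2 ∈ L ∧ x.1.card + x.2.card = k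

/-- closed under taking subsets -/
def Down (L : Finset (Finset (Fin n))) : Prop := ∀ σ ∈ L, ∀ τ ⊆ σ, τ ∈ L

theorem SN_add {L : Finset (Finset (Fin n))} {k : ℕ} {c e : XX n → ZMod 2} (hc : SN L k c)
    (he : SN L k e) : SN L k (fun x => c x + e x) := by
  intro x hx h
  by_cases h1 : c x = 0
  · by_cases h2 : e x = 0
    · exact absurd (by simp only [h1, h2, add_zero]) h
    · exact he x hx h2
  · exact hc x hx h1

theorem SN_up {L : Finset (Finset (Fin n))} (hL : Down L) {k : ℕ} {c : XX n → ZMod 2}
    (hc : SN L (k + 1) c) : SN L k (up c) := by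
  intro x hx h
  obtain ⟨y, hy, hxy, hcard⟩ := up_ne h
  have hy' : NE y := ⟨hx.1.mono hxy.1, hx.2.mono hxy.2⟩
  obtain ⟨h1, h2⟩ := hc y hy' hy
  exact ⟨hL _ h1 _ (union_subset_union hxy.1 hxy.2), by omega⟩

theorem SN_swap {L : Finset (Finset (Fin n))} {k : ℕ} {c : XX n → ZMod 2}
    (hc : SN L k c) : SN L k (fun x => c x.swap) := by
  intro x hx h
  obtain ⟨h1, h2⟩ := hc x.swap ⟨hx.2, hx.1⟩ h
  refine ⟨?_, ?_⟩
  · rw [union_comm]; exact h1
  · rw [add_comm]; exact h2

/-- the cone operator -/
theorem cone_op (a : Fin n) (g : Finset (Fin n) → ZMod 2) (hg : ∀ ρ, up1 g ρ = 0)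
    (τ : Finset (Fin n)) : up1 (fun ρ => if a ∈ ρ then g (ρ.erase a) else 0) τ = g τ := by
  by_cases ha : a ∈ τ
  · have h1 : up1 (fun ρ => if a ∈ ρ then g (ρ.erase a) else 0) τ =
        ∑ v ∈ τᶜ, g (insert v (τ.erase a)) := by
      apply sum_congr rfl
      intro v hv
      have hva : a ≠ v := by
        rintro rfl
        simp at hv
        exact hv ha
      show (if a ∈ insert v τ then g ((insert v τ).erase a) else 0) = _
      rw [if_pos (mem_insert_of_mem ha), erase_insert_of_ne hva.symm]
    have h2 := hg (τ.erase a)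
    have h3 : (τ.erase a)ᶜ = insert a τᶜ := by
      ext v
      simp only [mem_compl, mem_erase, mem_insert, not_and, ne_eq]
      tauto
    unfold up1 at h2
    rw [h3, sum_insert (by simp [ha]), insert_erase ha] at h2
    rw [h1]
    have h4 := z2_add_self (g τ)
    linear_combination h2 - h4
  · have h1 : up1 (fun ρ => if a ∈ ρ then g (ρ.erase a) else 0) τ =
        ∑ v ∈ τᶜ, if v = a then g τ else 0 := by
      apply sum_congr rfl
      intro v hv
      show (if a ∈ insert v τ then g ((insert v τ).erase a) else 0) = _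
      by_cases hva : v = a
      · subst hva
        rw [if_pos (mem_insert_self _ _), erase_insert ha, if_pos rfl]
      · rw [if_neg, if_neg hva]
        rw [mem_insert]
        rintro (h | h)
        · exact hva h.symm
        · exact ha h
    rw [h1, sum_ite_eq' _ a, if_pos (by simpa using ha)]

/-- the induction on the dimension of the first factor -/
theorem lemN_aux {L : Finset (Finset (Fin n))} (hL : Down L) (a : Finset (Fin n) → Fin n)
    (ha : ∀ σ : Finset (Fin n), σ.Nonempty → a σ ∈ σ) (k p : ℕ) :
    ∀ y : XX n → ZMod 2, SN L k y → (∀ x, NE x → up y x = 0) →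
      (∀ σ, σ.Nonempty → pr y σ = 0) → (∀ x, NE x → p < x.1.card → y x = 0) →
      ∃ b : XX n → ZMod 2, SN L (k + 1) b ∧ ∀ x, NE x → up b x = y x := by
  induction p with
  | zero =>
    intro y _ _ _ h
    refine ⟨fun _ => 0, fun x _ hx => absurd rfl hx, fun x hx => ?_⟩
    rw [up_zero, h x hx (card_pos.2 hx.1)]
  | succ p ih =>
    intro y hS hcyc hpr htop
    -- the cones
    let g : Finset (Fin n) → Finset (Fin n) → ZMod 2 := fun σ ρ => if ρ.Nonempty then y (σ, ρ) else 0
    let b : XX n → ZMod 2 := fun x =>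
      if x.1.card = p + 1 then (if a x.1 ∈ x.2 then g x.1 (x.2.erase (a x.1)) else 0) else 0
    have hgcyc : ∀ σ : Finset (Fin n), σ.card = p + 1 → ∀ ρ, up1 (g σ) ρ = 0 := by
      intro σ hσ ρ
      have hne : σ.Nonempty := card_pos.1 (by omega)
      have h1 : up1 (g σ) ρ = up1 (fun κ => y (σ, κ)) ρ := by
        apply up1_congr
        intro v _
        simp only [g]
        rw [if_pos (insert_nonempty _ _)]
      rw [h1]
      by_cases hρ : ρ.Nonempty
      · have h2 := hcyc (σ, ρ) ⟨hne, hρ⟩
        unfold up at h2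
        have h3 : up1 (fun κ => y (κ, ρ)) σ = 0 := by
          rw [← up1_zero σ]
          apply up1_congr
          intro v hv
          apply htop _ ⟨insert_nonempty _ _, hρ⟩
          simp only [card_insert_of_notMem hv]
          omega
        simp only at h2
        rw [h3, zero_add] at h2
        exact h2
      · rw [not_nonempty_iff_eq_empty] at hρ
        subst hρ
        have h2 := hpr σ hne
        unfold pr at h2
        unfold up1
        rw [compl_empty]
        simp only [insert_empty_eq]
        exact h2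
    have hbS : SN L (k + 1) b := by
      intro x hx h
      simp only [b, g] at h
      by_cases h1 : x.1.card = p + 1
      · rw [if_pos h1] at h
        by_cases h2 : a x.1 ∈ x.2
        · rw [if_pos h2] at h
          by_cases h3 : (x.2.erase (a x.1)).Nonempty
          · rw [if_pos h3] at h
            obtain ⟨h4, h5⟩ := hS (x.1, x.2.erase (a x.1)) ⟨hx.1, h3⟩ h
            simp only at h4 h5
            have h6 : x.1 ∪ x.2 = x.1 ∪ x.2.erase (a x.1) := by
              ext v
              simp only [mem_union, mem_erase]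
              constructor
              · rintro (h | h)
                · exact Or.inl h
                · by_cases hv : v = a x.1
                  · left
                    rw [hv]
                    exact ha _ hx.1
                  · exact Or.inr ⟨hv, h⟩
              · rintro (h | h)
                · exact Or.inl h
                · exact Or.inr h.2
            rw [card_erase_of_mem h2] at h5
            have h7 := card_pos.2 hx.2
            rw [h6]
            exact ⟨h4, by omega⟩
          · rw [if_neg h3] at h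
            exact absurd rfl h
        · rw [if_neg h2] at h
          exact absurd rfl h
      · rw [if_neg h1] at h
        exact absurd rfl h
    have hbup : ∀ x, NE x → p < x.1.card → up b x = y x := by
      intro x hx hcard
      obtain ⟨σ, τ⟩ := x
      simp only at hcard
      unfold up
      have h1 : up1 (fun ρ => b (ρ, τ)) σ = 0 := by
        rw [← up1_zero σ]
        apply up1_congr
        intro v hv
        simp only [b]
        rw [if_neg]
        rw [card_insert_of_notMem hv]
        omega
      simp only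
      rw [h1, zero_add]
      by_cases h2 : σ.card = p + 1
      · have h3 : up1 (fun ρ => b (σ, ρ)) τ =
            up1 (fun ρ => if a σ ∈ ρ then g σ (ρ.erase (a σ)) else 0) τ := by
          apply up1_congr
          intro v _
          simp only [b]
          rw [if_pos h2]
        rw [h3, cone_op (a σ) (g σ) (hgcyc σ h2) τ]
        simp only [g]
        rw [if_pos hx.2]
      · have h3 : up1 (fun ρ => b (σ, ρ)) τ = 0 := by
          rw [← up1_zero τ]
          apply up1_congr
          intro v _
          simp only [b]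
          rw [if_neg h2]
        rw [h3, htop (σ, τ) hx]
        show p + 1 < σ.card
        omega
    have hprb : ∀ σ, pr b σ = 0 := by
      intro σ
      apply sum_eq_zero
      intro v _
      simp only [b, g]
      by_cases h1 : σ.card = p + 1
      · rw [if_pos h1]
        by_cases h2 : a σ ∈ ({v} : Finset (Fin n))
        · rw [if_pos h2, if_neg]
          rw [mem_singleton] at h2
          rw [h2]
          simp
        · rw [if_neg h2]
      · rw [if_neg h1]
    obtain ⟨b', hb'S, hb'⟩ := ih (fun x => y x + up b x) (SN_add hS (SN_up hL hbS))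
      (by
        intro x hx
        rw [up_add, hcyc x hx, up_up, add_zero])
      (by
        intro σ hσ
        have h1 : pr (fun x => y x + up b x) σ = pr y σ + pr (up b) σ := by
          unfold pr
          rw [← sum_add_distrib]
        rw [h1, hpr σ hσ, pr_up, zero_add]
        have h2 : pr b = fun _ => 0 := funext hprb
        rw [h2, up1_zero])
      (by
        intro x hx hp
        rw [hbup x hx hp]
        exact z2_add_self _)
    refine ⟨fun x => b x + b' x, SN_add hbS hb'S, fun x hx => ?_⟩
    rw [up_add, hb' x hx]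
    have := z2_add_self (up b x)
    linear_combination this

/-- A cycle of `N` whose first projection is a boundary is a boundary. -/
theorem lemN {L : Finset (Finset (Fin n))} (hL : Down L) (k : ℕ) (y : XX n → ZMod 2)
    (hS : SN L k y) (hcyc : ∀ x, NE x → up y x = 0) (u : Finset (Fin n) → ZMod 2)
    (hu : ∀ σ, u σ ≠ 0 → σ ∈ L ∧ σ.card = k) (hpr : ∀ σ, σ.Nonempty → up1 u σ = pr y σ) :
    ∃ b : XX n → ZMod 2, SN L (k + 1) b ∧ ∀ x, NE x → up b x = y x := by
  by_cases hn : Nonempty (Fin n)
  · obtain ⟨a, ha⟩ : ∃ a : Finset (Fin n) → Fin n, ∀ σ : Finset (Fin n), σ.Nonempty → a σ ∈ σ := by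
      classical
      exact ⟨fun σ => if h : σ.Nonempty then h.choose else Classical.choice hn,
        fun σ h => by simp only [dif_pos h]; exact h.choose_spec⟩
    let b0 : XX n → ZMod 2 := fun x => if x.1.Nonempty ∧ x.2 = {a x.1} then u x.1 else 0
    have hb0S : SN L (k + 1) b0 := by
      intro x hx h
      simp only [b0] at h
      by_cases h1 : x.1.Nonempty ∧ x.2 = {a x.1}
      · rw [if_pos h1] at h
        obtain ⟨h2, h3⟩ := hu _ h
        rw [h1.2]
        refine ⟨?_, by rw [h3, card_singleton]⟩
        rw [union_eq_left.2 (singleton_subset_iff.2 (ha _ hx.1))]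
        exact h2
      · rw [if_neg h1] at h
        exact absurd rfl h
    have hprb0 : ∀ σ : Finset (Fin n), σ.Nonempty → pr b0 σ = u σ := by
      intro σ hσ
      unfold pr
      simp only [b0]
      rw [sum_eq_single (a σ)]
      · rw [if_pos ⟨hσ, rfl⟩]
      · intro v _ hv
        rw [if_neg]
        rintro ⟨_, h⟩
        exact hv (singleton_injective h)
      · intro h
        exact absurd (mem_univ _) h
    obtain ⟨b, hbS, hb⟩ := lemN_aux hL a ha k n (fun x => y x + up b0 x)
      (SN_add hS (SN_up hL hb0S))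
      (by
        intro x hx
        rw [up_add, hcyc x hx, up_up, add_zero])
      (by
        intro σ hσ
        have h1 : pr (fun x => y x + up b0 x) σ = pr y σ + pr (up b0) σ := by
          unfold pr
          rw [← sum_add_distrib]
        have h2 : up1 (pr b0) σ = up1 u σ := by
          apply up1_congr
          intro v _
          exact hprb0 _ (insert_nonempty _ _)
        rw [h1, pr_up, h2, hpr σ hσ]
        exact z2_add_self _)
      (by
        intro x _ hp
        have := card_le_univ x.1
        rw [Fintype.card_fin] at this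
        omega)
    refine ⟨fun x => b0 x + b x, SN_add hb0S hbS, fun x hx => ?_⟩
    rw [up_add, hb x hx]
    have := z2_add_self (up b0 x)
    linear_combination this
  · refine ⟨fun _ => 0, fun x _ hx => absurd rfl hx, fun x hx => ?_⟩
    obtain ⟨v, _⟩ := hx.1
    exact absurd ⟨v⟩ hn

/-- exactness of the mod two chain complex at the faces with `q` elements -/
def Acyc (L : Finset (Finset (Fin n))) (q : ℕ) : Prop :=
  ∀ z : Finset (Fin n) → ZMod 2, (∀ σ, z σ ≠ 0 → σ ∈ L ∧ σ.card = q) → (∀ σ, up1 z σ = 0) →
    ∃ u : Finset (Fin n) → ZMod 2, (∀ σ, u σ ≠ 0 → σ ∈ L ∧ σ.card = q + 1) ∧ ∀ σ, up1 u σ = z σ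

/-- cycles of large degree of `N` are boundaries -/
theorem lemN' {L : Finset (Finset (Fin n))} (hL : Down L) (q : ℕ) (hq : 2 ≤ q) (hac : Acyc L q)
    (y : XX n → ZMod 2) (hS : SN L (q + 1) y) (hcyc : ∀ x, NE x → up y x = 0) :
    ∃ b : XX n → ZMod 2, SN L (q + 2) b ∧ ∀ x, NE x → up b x = y x := by
  let z : Finset (Fin n) → ZMod 2 := fun σ => if σ.Nonempty then pr y σ else 0
  have hz1 : ∀ σ, z σ ≠ 0 → σ ∈ L ∧ σ.card = q := by
    intro σ h
    simp only [z] at h
    by_cases hσ : σ.Nonempty
    · rw [if_pos hσ] at h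
      obtain ⟨v, _, hv⟩ := exists_ne_zero_of_sum_ne_zero h
      obtain ⟨h1, h2⟩ := hS (σ, {v}) ⟨hσ, singleton_nonempty v⟩ hv
      refine ⟨hL _ h1 _ subset_union_left, ?_⟩
      simp only [card_singleton] at h2
      omega
    · rw [if_neg hσ] at h
      exact absurd rfl h
  have hz2 : ∀ σ, up1 z σ = 0 := by
    intro σ
    by_cases hσ : σ.Nonempty
    · have h1 : up1 z σ = up1 (pr y) σ := by
        apply up1_congr
        intro v _
        simp only [z]
        rw [if_pos (insert_nonempty _ _)]
      rw [h1, ← pr_up]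
      apply sum_eq_zero
      intro v _
      exact hcyc (σ, {v}) ⟨hσ, singleton_nonempty v⟩
    · rw [not_nonempty_iff_eq_empty] at hσ
      subst hσ
      rw [← up1_zero ∅]
      apply up1_congr
      intro v _
      by_contra h
      have := (hz1 _ h).2
      rw [insert_empty_eq, card_singleton] at this
      omega
  obtain ⟨u, hu1, hu2⟩ := hac z hz1 hz2
  refine lemN hL (q + 1) y hS hcyc u hu1 ?_
  intro σ hσ
  rw [hu2 σ]
  simp only [z]
  rw [if_pos hσ]

end Pool.Agent.R141.MT
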