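import Mathlib
import Pool.Agent.R141.MT.Alg

set_option autoImplicit false

/-!
# The cap product of functionals on lists with chains of product cells
-/

namespace Pool.Agent.R141.MT

open Finset Pool.Agent.Helper133.BU

variable {n : ℕ}

/-- swapping all entries of the lists -/
noncomputable def swapC : Chain (XX n) →ₗ[ZMod 2] Chain (XX n) :=
  Finsupp.lmapDomain (ZMod 2) (ZMod 2) (List.map Prod.swap)

theorem swapC_single (l : List (XX n)) (a : ZMod 2) :
    swapC (Finsupp.single l a) = Finsupp.single (l.map Prod.swap) a := by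
  simp [swapC]

theorem swapC_cone (x : XX n) (c : Chain (XX n)) : swapC (cone x c) = cone x.swap (swapC c) := by
  induction c using Finsupp.induction_linear with
  | zero => simp
  | add f g hf hg => simp only [map_add, hf, hg]
  | single l b => rw [cone_single, swapC_single, swapC_single, cone_single, List.map_cons]

theorem swapC_bdL (l : List (XX n)) : swapC (bdL l) = bdL (l.map Prod.swap) := by
  induction l with
  | nil => simp [bdL]
  | cons v l ih =>
    rw [bdL, map_add, swapC_single, swapC_cone, ih, List.map_cons, bdL]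

theorem swapC_bd (c : Chain (XX n)) : swapC (bd c) = bd (swapC c) := by
  induction c using Finsupp.induction_linear with
  | zero => simp
  | add f g hf hg => simp only [map_add, hf, hg]
  | single l b => rw [bd_single, map_smul, swapC_bdL, swapC_single, bd_single]

theorem swapC_swapC (c : Chain (XX n)) : swapC (swapC c) = c := by
  induction c using Finsupp.induction_linear with
  | zero => simp
  | add f g hf hg => simp only [map_add, hf, hg]
  | single l b =>
    rw [swapC_single, swapC_single, List.map_map]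
    congr 1
    have : (Prod.swap ∘ Prod.swap : XX n → XX n) = id := by
      funext x
      simp
    rw [this, List.map_id]

/-- functionals on lists -/
abbrev Fun (n : ℕ) := Chain (XX n) →ₗ[ZMod 2] ZMod 2

/-- the cap product -/
noncomputable def cap (Z : XX n → ZMod 2) : ℕ → Fun n → XX n → ZMod 2
  | 0, Q, x => Q (Finsupp.single [x] 1) * Z x
  | i + 1, Q, x => up (fun y => cap Z i (Q.comp (cone x)) y) x

theorem cap_add (Z : XX n → ZMod 2) (i : ℕ) : ∀ (Q Q' : Fun n) (x : XX n),
    cap Z i (Q + Q') x = cap Z i Q x + cap Z i Q' x := by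
  induction i with
  | zero =>
    intro Q Q' x
    simp only [cap, LinearMap.add_apply]
    ring
  | succ i ih =>
    intro Q Q' x
    simp only [cap]
    rw [← up_add]
    congr 1
    funext y
    rw [LinearMap.add_comp, ih]

theorem cap_bd {Z : XX n → ZMod 2} (hZ : ∀ x, NE x → up Z x = 0) (i : ℕ) :
    ∀ (Q : Fun n) (x : XX n), NE x → up (cap Z i Q) x = cap Z (i + 1) (Q.comp bd) x := by
  induction i with
  | zero =>
    intro Q x hx
    simp only [cap]
    have h1 : ∀ y, ((Q.comp bd).comp (cone x)) (Finsupp.single [y] 1) * Z y =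
        Q (Finsupp.single [y] 1) * Z y + Q (Finsupp.single [x] 1) * Z y := by
      intro y
      have : ((Q.comp bd).comp (cone x)) (Finsupp.single [y] 1) =
          Q (Finsupp.single [y] 1) + Q (Finsupp.single [x] 1) := by
        rw [LinearMap.comp_apply, LinearMap.comp_apply, bd_cone, map_add, bd_single, one_smul]
        simp [bdL, cone_single]
      rw [this]
      ring
    simp_rw [h1]
    rw [up_add]
    have h2 : up (fun y => Q (Finsupp.single [x] 1) * Z y) x = Q (Finsupp.single [x] 1) * up Z x := by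
      simp only [up, up1, mul_add, mul_sum]
    rw [h2, hZ x hx, mul_zero, add_zero]
  | succ i ih =>
    intro Q x hx
    have h1 : ∀ y, cap Z (i + 1) ((Q.comp bd).comp (cone x)) y =
        cap Z (i + 1) Q y + cap Z (i + 1) ((Q.comp (cone x)).comp bd) y := by
      intro y
      rw [← cap_add]
      congr 1
      ext c
      simp only [LinearMap.comp_apply, LinearMap.add_apply, bd_cone, map_add]
    show _ = up (fun y => cap Z (i + 1) ((Q.comp bd).comp (cone x)) y) x
    simp_rw [h1]
    rw [up_add]
    have h2 : up (fun y => cap Z (i + 1) ((Q.comp (cone x)).comp bd) y) x =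
        up (up (cap Z i (Q.comp (cone x)))) x := by
      apply up_congr hx
      intro y hy
      rw [ih _ y hy]
    rw [h2, up_up, add_zero]

theorem cap_swap {Z : XX n → ZMod 2} (hZ : ∀ x, Z x.swap = Z x) (i : ℕ) :
    ∀ (Q : Fun n) (x : XX n), cap Z i (Q.comp swapC) x = cap Z i Q x.swap := by
  induction i with
  | zero =>
    intro Q x
    simp only [cap, LinearMap.comp_apply, swapC_single, List.map_cons, List.map_nil, hZ]
  | succ i ih =>
    intro Q x
    simp only [cap]
    rw [← up_swap]
    congr 1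
    funext y
    rw [← ih]
    congr 1
    ext c
    simp only [LinearMap.comp_apply, swapC_cone]

/-- supported on the product cells of `L × L` with `k` vertices in all -/
def SX (L : Finset (Finset (Fin n))) (k : ℕ) (c : XX n → ZMod 2) : Prop :=
  ∀ x, c x ≠ 0 → x.1 ∈ L ∧ x.2 ∈ L ∧ x.1.card + x.2.card = k

theorem cap_supp {L : Finset (Finset (Fin n))} (hL : Down L) {k : ℕ} {Z : XX n → ZMod 2}
    (hZ : SX L k Z) (i : ℕ) : ∀ (Q : Fun n) (x : XX n), cap Z i Q x ≠ 0 →
      x.1 ∈ L ∧ x.2 ∈ L ∧ x.1.card + x.2.card + i = k := by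
  induction i with
  | zero =>
    intro Q x h
    simp only [cap] at h
    exact hZ x (right_ne_zero_of_mul h)
  | succ i ih =>
    intro Q x h
    simp only [cap] at h
    obtain ⟨y, hy, hxy, hcard⟩ := up_ne h
    obtain ⟨h1, h2, h3⟩ := ih _ y hy
    exact ⟨hL _ h1 _ hxy.1, hL _ h2 _ hxy.2, by omega⟩

/-- the deleted product (in terms of face pairs) -/
def Hat (L : Finset (Finset (Fin n))) : Set (XX n) :=
  {x | x.1 ∈ L ∧ x.2 ∈ L ∧ x.1.Nonempty ∧ x.2.Nonempty ∧ x.1 ∪ x.2 ∉ L}

/-- chains in `Hat L` -/
def ChainIn (L : Finset (Finset (Fin n))) (l : List (XX n)) : Prop :=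
  (∀ x ∈ l, x ∈ Hat L) ∧ l.Pairwise (fun x y => x ≤ y)

theorem cap_zero {L : Finset (Finset (Fin n))} (hL : Down L) {k : ℕ} {Z : XX n → ZMod 2}
    (hZ : SX L k Z) (i : ℕ) : ∀ (Q : Fun n) (x : XX n), x ∈ Hat L →
      (∀ l : List (XX n), l.length = i → ChainIn L (x :: l) → Q (Finsupp.single (x :: l) 1) = 0) →
      cap Z i Q x = 0 := by
  induction i with
  | zero =>
    intro Q x hx h
    simp only [cap]
    rw [h [] rfl ⟨by simpa using hx, by simp⟩, zero_mul]
  | succ i ih =>
    intro Q x hx h
    simp only [cap]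
    by_contra hne
    obtain ⟨y, hy, hxy, -⟩ := up_ne hne
    obtain ⟨h1, h2, -⟩ := cap_supp hL hZ i _ y hy
    apply hy
    have hyH : y ∈ Hat L := by
      refine ⟨h1, h2, hx.2.2.1.mono hxy.1, hx.2.2.2.1.mono hxy.2, fun h3 => ?_⟩
      exact hx.2.2.2.2 (hL _ h3 _ (union_subset_union hxy.1 hxy.2))
    apply ih _ y hyH
    intro l hl hch
    rw [LinearMap.comp_apply, cone_single]
    apply h (y :: l) (by simp [hl])
    obtain ⟨h3, h4⟩ := hch
    refine ⟨?_, ?_⟩
    · intro w hw
      rcases List.mem_cons.1 hw with rfl | hw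
      · exact hx
      · exact h3 w hw
    · rw [List.pairwise_cons]
      refine ⟨?_, h4⟩
      intro w hw
      rcases List.mem_cons.1 hw with rfl | hw
      · exact hxy
      · exact hxy.trans ((List.pairwise_cons.1 h4).1 w hw)

/-- the Smith sequence -/
structure Smith (L : Finset (Finset (Fin n))) (d : ℕ) (R : ℕ → Fun n) : Prop where
  large : ∀ i, d ≤ i → R i = 0
  zero : ∀ x ∈ Hat L, R 0 (Finsupp.single [x] 1) + R 0 (Finsupp.single [x.swap] 1) = 1
  succ : ∀ i, ∀ l : List (XX n), l.length = i + 2 → ChainIn L l →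
    R i (bdL l) = R (i + 1) (Finsupp.single l 1) + R (i + 1) (Finsupp.single (l.map Prod.swap) 1)

/-- the functionals -/
noncomputable def qfun (R : ℕ → Fun n) : ℕ → Fun n
  | 0 => R 0 + (R 0).comp swapC
  | i + 1 => (R i).comp bd + (R (i + 1) + (R (i + 1)).comp swapC)

theorem qfun_bd (R : ℕ → Fun n) (i : ℕ) :
    (qfun R i).comp bd = qfun R (i + 1) + (qfun R (i + 1)).comp swapC := by
  have key : ∀ j, (R j + (R j).comp swapC).comp bd =
      qfun R (j + 1) + (qfun R (j + 1)).comp swapC := by
    intro j
    ext c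
    simp only [qfun, LinearMap.comp_apply, LinearMap.add_apply, swapC_bd, swapC_swapC]
    have h1 := z2_add_self (R (j + 1) ((Finsupp.lsingle c : ZMod 2 →ₗ[ZMod 2] _) 1))
    have h2 := z2_add_self (R (j + 1) (swapC ((Finsupp.lsingle c : ZMod 2 →ₗ[ZMod 2] _) 1)))
    linear_combination - h1 - h2
  cases i with
  | zero => exact key 0
  | succ i =>
    rw [← key (i + 1)]
    ext c
    simp only [qfun, LinearMap.comp_apply, LinearMap.add_apply, bd_bd, map_zero, zero_add]

/-- the chains -/
noncomputable def yy (Z : XX n → ZMod 2) (R : ℕ → Fun n) : ℕ → XX n → ZMod 2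
  | 0 => fun x => Z x + cap Z 0 (qfun R 0) x
  | i + 1 => cap Z (i + 1) (qfun R (i + 1))

theorem up_yy {Z : XX n → ZMod 2} (hZ : ∀ x, NE x → up Z x = 0) (hZs : ∀ x, Z x.swap = Z x)
    (R : ℕ → Fun n) (i : ℕ) (x : XX n) (hx : NE x) :
    up (yy Z R i) x = yy Z R (i + 1) x + yy Z R (i + 1) x.swap := by
  have h1 : up (yy Z R i) x = cap Z (i + 1) ((qfun R i).comp bd) x := by
    cases i with
    | zero =>
      show up (fun x => Z x + cap Z 0 (qfun R 0) x) x = _
      rw [up_add, hZ x hx, zero_add, cap_bd hZ _ _ _ hx]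
    | succ i => exact cap_bd hZ _ _ _ hx
  rw [h1, qfun_bd, cap_add, cap_swap hZs]
  rfl

theorem yy_SN {L : Finset (Finset (Fin n))} (hL : Down L) {d k : ℕ} {R : ℕ → Fun n}
    (hR : Smith L d R) {Z : XX n → ZMod 2} (hZ : SX L k Z) (i : ℕ) (x : XX n) (hx : NE x)
    (h : yy Z R i x ≠ 0) : x.1 ∪ x.2 ∈ L ∧ x.1.card + x.2.card + i = k := by
  have hsupp : x.1 ∈ L ∧ x.2 ∈ L ∧ x.1.card + x.2.card + i = k := by
    cases i with
    | zero =>
      have h1 : Z x ≠ 0 := by
        intro h0
        apply h
        show Z x + qfun R 0 (Finsupp.single [x] 1) * Z x = 0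
        rw [h0, mul_zero, add_zero]
      exact hZ x h1
    | succ i => exact cap_supp hL hZ _ _ x h
  refine ⟨?_, hsupp.2.2⟩
  by_contra hcon
  have hH : x ∈ Hat L := ⟨hsupp.1, hsupp.2.1, hx.1, hx.2, hcon⟩
  apply h
  cases i with
  | zero =>
    show Z x + qfun R 0 (Finsupp.single [x] 1) * Z x = 0
    have h1 : qfun R 0 (Finsupp.single [x] 1) = 1 := by
      show R 0 (Finsupp.single [x] 1) + R 0 (swapC (Finsupp.single [x] 1)) = 1
      rw [swapC_single]
      exact hR.zero x hH
    rw [h1, one_mul]
    exact z2_add_self _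
  | succ i =>
    apply cap_zero hL hZ _ _ x hH
    intro l hl hch
    show R i (bd (Finsupp.single (x :: l) 1)) + (R (i + 1) (Finsupp.single (x :: l) 1) +
      R (i + 1) (swapC (Finsupp.single (x :: l) 1))) = 0
    rw [bd_single, one_smul, swapC_single, hR.succ i (x :: l) (by simp [hl]) hch]
    exact z2_add_self _

/-- **Main algebraic result.** -/
theorem acyc_of_smith {L : Finset (Finset (Fin n))} (hL : Down L) {d m : ℕ} (hd : 1 ≤ d)
    (hm : d ≤ m) {R : ℕ → Fun n} (hR : Smith L d R) (hac : ∀ q, m + 1 < q → Acyc L q) :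
    Acyc L (m + 1) := by
  intro z hz1 hz2
  by_contra hcon
  -- a functional
  let B : Submodule (ZMod 2) (Finset (Fin n) → ZMod 2) :=
    { carrier := {w | ∃ u : Finset (Fin n) → ZMod 2, (∀ σ, u σ ≠ 0 → σ ∈ L ∧ σ.card = m + 2) ∧
        ∀ σ, up1 u σ = w σ}
      add_mem' := by
        rintro w w' ⟨u, h1, h2⟩ ⟨u', h1', h2'⟩
        refine ⟨fun σ => u σ + u' σ, fun σ h => ?_, fun σ => ?_⟩
        · by_cases h3 : u σ = 0
          · by_cases h4 : u' σ = 0
            · exact absurd (by simp only [h3, h4, add_zero]) h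
            · exact h1' σ h4
          · exact h1 σ h3
        · rw [up1_add, h2, h2']
          rfl
      zero_mem' := ⟨fun _ => 0, fun _ h => absurd rfl h, fun σ => up1_zero σ⟩
      smul_mem' := by
        rintro a w ⟨u, h1, h2⟩
        refine ⟨fun σ => a * u σ, fun σ h => h1 σ (right_ne_zero_of_mul h), fun σ => ?_⟩
        have : up1 (fun σ => a * u σ) σ = a * up1 u σ := by
          simp only [up1, mul_sum]
        rw [this, h2]
        rfl }
  have hzB : z ∉ B := fun ⟨u, h1, h2⟩ => hcon ⟨u, h1, h2⟩
  obtain ⟨φ, hφz, hφB⟩ := Submodule.exists_le_ker_of_notMem hzB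
  let cs : Finset (Fin n) → ZMod 2 := fun σ => if σ.card = m + 1 then φ (Pi.single σ 1) else 0
  have hcs : ∀ w : Finset (Fin n) → ZMod 2, (∀ σ, w σ ≠ 0 → σ.card = m + 1) →
      ∑ σ, cs σ * w σ = φ w := by
    intro w hw
    have h1 : w = ∑ σ, w σ • (Pi.single σ 1 : Finset (Fin n) → ZMod 2) := by
      funext τ
      rw [Finset.sum_apply, sum_eq_single τ]
      · simp
      · intro σ _ hσ
        rw [Pi.smul_apply, Pi.single_eq_of_ne hσ.symm, smul_zero]
      · intro h
        exact absurd (mem_univ _) h
    conv_rhs => rw [h1]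
    rw [map_sum]
    apply sum_congr rfl
    intro σ _
    rw [map_smul, smul_eq_mul]
    by_cases h2 : w σ = 0
    · rw [h2, mul_zero, zero_mul]
    · simp only [cs]
      rw [if_pos (hw σ h2), mul_comm]
  have hcsB : ∀ u : Finset (Fin n) → ZMod 2, (∀ σ, u σ ≠ 0 → σ ∈ L ∧ σ.card = m + 2) →
      ∑ σ, cs σ * up1 u σ = 0 := by
    intro u hu
    rw [hcs (up1 u)]
    · exact hφB ⟨u, hu, fun _ => rfl⟩
    · intro σ h
      obtain ⟨v, hv, h'⟩ := up1_ne h
      have := (hu _ h').2
      rw [card_insert_of_notMem hv] at this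
      omega
  -- the product
  let Z : XX n → ZMod 2 := fun x => z x.1 * z x.2
  have hZs : ∀ x, Z x.swap = Z x := fun x => mul_comm _ _
  have hZup : ∀ x, NE x → up Z x = 0 := by
    intro x _
    have h1 : up1 (fun ρ => z ρ * z x.2) x.1 = up1 z x.1 * z x.2 := by
      simp only [up1, sum_mul]
    have h2 : up1 (fun ρ => z x.1 * z ρ) x.2 = z x.1 * up1 z x.2 := by
      simp only [up1, mul_sum]
    show up1 (fun ρ => z ρ * z x.2) x.1 + up1 (fun ρ => z x.1 * z ρ) x.2 = 0
    rw [h1, h2, hz2, hz2, zero_mul, mul_zero, add_zero]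
  have hZX : SX L (2 * m + 2) Z := by
    intro x h
    obtain ⟨h1, h2⟩ := hz1 _ (left_ne_zero_of_mul h)
    obtain ⟨h3, h4⟩ := hz1 _ (right_ne_zero_of_mul h)
    exact ⟨h1, h3, by omega⟩
  -- the chains
  have hyS : ∀ i ≤ m, SN L (2 * m + 2 - i) (yy Z R i) := by
    intro i hi x hx h
    obtain ⟨h1, h2⟩ := yy_SN hL hR hZX i x hx h
    exact ⟨h1, by omega⟩
  have descent : ∀ j, j ≤ m → ∃ c e : XX n → ZMod 2, SN L (2 * m + 3 - (m - j)) c ∧
      SN L (2 * m + 2 - (m - j)) e ∧
      ∀ x, NE x → up c x = yy Z R (m - j) x + (e x + e x.swap) := by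
    intro j
    induction j with
    | zero =>
      intro _
      obtain ⟨m', rfl⟩ : ∃ m', m = m' + 1 := ⟨m - 1, by omega⟩
      rw [Nat.sub_zero]
      have hy : ∀ x, NE x → yy Z R (m' + 1) x = up (cap Z m' (R m')) x := by
        intro x hx
        rw [cap_bd hZup _ _ _ hx]
        show cap Z (m' + 1) ((R m').comp bd + (R (m' + 1) + (R (m' + 1)).comp swapC)) x = _
        rw [hR.large (m' + 1) hm, LinearMap.zero_comp, add_zero, add_zero]
      obtain ⟨b, hb1, hb2⟩ := lemN hL (m' + 3) (yy Z R (m' + 1)) (by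
          have := hyS (m' + 1) le_rfl
          rw [show 2 * (m' + 1) + 2 - (m' + 1) = m' + 3 by omega] at this
          exact this)
        (by
          intro x hx
          rw [up_congr hx hy, up_up])
        (pr (cap Z m' (R m')))
        (by
          intro σ h
          obtain ⟨v, _, hv⟩ := exists_ne_zero_of_sum_ne_zero h
          obtain ⟨h1, h2, h3⟩ := cap_supp hL hZX m' _ _ hv
          simp only [card_singleton] at h3
          exact ⟨h1, by omega⟩)
        (by
          intro σ hσ
          rw [← pr_up]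
          unfold pr
          apply sum_congr rfl
          intro v _
          exact (hy (σ, {v}) ⟨hσ, singleton_nonempty v⟩).symm)
      refine ⟨b, fun _ => 0, ?_, fun x _ h => absurd rfl h, ?_⟩
      · rw [show 2 * (m' + 1) + 3 - (m' + 1) = m' + 3 + 1 by omega]
        exact hb1
      · intro x hx
        rw [hb2 x hx, add_zero, add_zero]
    | succ j ih =>
      intro hj
      obtain ⟨c', e', hc', he', hce⟩ := ih (by omega)
      obtain ⟨i, hi⟩ : ∃ i, m - (j + 1) = i := ⟨_, rfl⟩
      have hi1 : m - j = i + 1 := by omega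
      rw [hi]
      rw [hi1] at hc' he' hce
      have hdeg : 2 * m + 2 - i = (2 * m + 1 - i) + 1 := by omega
      have hc'' : SN L ((2 * m + 1 - i) + 1) c' := by
        rw [show 2 * m + 1 - i + 1 = 2 * m + 3 - (i + 1) by omega]
        exact hc'
      obtain ⟨b, hb1, hb2⟩ := lemN' hL (2 * m + 1 - i) (by omega) (hac _ (by omega))
        (fun x => yy Z R i x + (c' x + c' x.swap))
        (SN_add (by rw [← hdeg]; exact hyS i (by omega)) (SN_add hc'' (SN_swap hc'')))
        (by
          intro x hx
          rw [up_add, up_add, up_yy hZup hZs R i x hx, up_swap, hce x hx,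
            hce x.swap ⟨hx.2, hx.1⟩, Prod.swap_swap]
          have h1 := z2_add_self (yy Z R (i + 1) x)
          have h2 := z2_add_self (yy Z R (i + 1) x.swap)
          have h3 := z2_add_self (e' x)
          have h4 := z2_add_self (e' x.swap)
          linear_combination h1 + h2 + h3 + h4)
      refine ⟨b, c', ?_, ?_, hb2⟩
      · rw [show 2 * m + 3 - i = 2 * m + 1 - i + 2 by omega]
        exact hb1
      · rw [hdeg]
        exact hc''
  obtain ⟨c, e, hc, -, hce⟩ := descent m le_rfl
  rw [Nat.sub_self] at hc hce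
  -- evaluation
  let ev : (XX n → ZMod 2) → ZMod 2 := fun w => ∑ x : XX n, cs x.1 * cs x.2 * w x
  have hNE : ∀ x : XX n, cs x.1 * cs x.2 ≠ 0 → NE x ∧ x.2.card = m + 1 ∧ x.1.card = m + 1 := by
    intro x h
    have h1 : x.1.card = m + 1 := by
      by_contra h'
      exact left_ne_zero_of_mul h (if_neg h')
    have h2 : x.2.card = m + 1 := by
      by_contra h'
      exact right_ne_zero_of_mul h (if_neg h')
    exact ⟨⟨card_pos.1 (by omega), card_pos.1 (by omega)⟩, h2, h1⟩
  have ev_congr : ∀ w w' : XX n → ZMod 2, (∀ x, NE x → w x = w' x) → ev w = ev w' := by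
    intro w w' h
    apply sum_congr rfl
    intro x _
    by_cases h1 : cs x.1 * cs x.2 = 0
    · rw [h1, zero_mul, zero_mul]
    · rw [h x (hNE x h1).1]
  have ev_add : ∀ w w' : XX n → ZMod 2, ev (fun x => w x + w' x) = ev w + ev w' := by
    intro w w'
    simp only [ev]
    rw [← sum_add_distrib]
    apply sum_congr rfl
    intro x _
    ring
  have ev_swap : ∀ w : XX n → ZMod 2, ev (fun x => w x.swap) = ev w := by
    intro w
    simp only [ev]
    rw [← Equiv.sum_comp (Equiv.prodComm _ _)]
    apply sum_congr rfl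
    intro x _
    simp only [Equiv.prodComm_apply, Prod.fst_swap, Prod.snd_swap, Prod.swap_swap]
    ring
  have ev_up1 : ev (fun x => up1 (fun ρ => c (ρ, x.2)) x.1) = 0 := by
    simp only [ev]
    rw [Fintype.sum_prod_type_right]
    apply sum_eq_zero
    intro τ _
    by_cases hτ : τ.card = m + 1
    · have hτne : τ.Nonempty := card_pos.1 (by omega)
      have h1 : ∑ σ, cs σ * up1 (fun ρ => if ρ.Nonempty then c (ρ, τ) else 0) σ = 0 := by
        apply hcsB
        intro ρ h
        by_cases hρ : ρ.Nonempty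
        · rw [if_pos hρ] at h
          obtain ⟨h2, h3⟩ := hc (ρ, τ) ⟨hρ, hτne⟩ h
          simp only at h2 h3
          exact ⟨hL _ h2 _ subset_union_left, by omega⟩
        · rw [if_neg hρ] at h
          exact absurd rfl h
      calc ∑ σ, cs σ * cs τ * up1 (fun ρ => c (ρ, τ)) σ
          = cs τ * ∑ σ, cs σ * up1 (fun ρ => if ρ.Nonempty then c (ρ, τ) else 0) σ := by
            rw [mul_sum]
            apply sum_congr rfl
            intro σ _
            have : up1 (fun ρ => if ρ.Nonempty then c (ρ, τ) else 0) σ =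
                up1 (fun ρ => c (ρ, τ)) σ := by
              apply up1_congr
              intro v _
              show (if (insert v σ).Nonempty then c (insert v σ, τ) else 0) = _
              rw [if_pos (insert_nonempty _ _)]
            rw [this]
            ring
        _ = 0 := by rw [h1, mul_zero]
    · apply sum_eq_zero
      intro σ _
      have : cs τ = 0 := if_neg hτ
      simp only [this, mul_zero, zero_mul]
  have ev_up2 : ev (fun x => up1 (fun ρ => c (x.1, ρ)) x.2) = 0 := by
    simp only [ev]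
    rw [Fintype.sum_prod_type]
    apply sum_eq_zero
    intro σ _
    by_cases hσ : σ.card = m + 1
    · have hσne : σ.Nonempty := card_pos.1 (by omega)
      have h1 : ∑ τ, cs τ * up1 (fun ρ => if ρ.Nonempty then c (σ, ρ) else 0) τ = 0 := by
        apply hcsB
        intro ρ h
        by_cases hρ : ρ.Nonempty
        · rw [if_pos hρ] at h
          obtain ⟨h2, h3⟩ := hc (σ, ρ) ⟨hσne, hρ⟩ h
          simp only at h2 h3
          exact ⟨hL _ h2 _ subset_union_right, by omega⟩
        · rw [if_neg hρ] at h
          exact absurd rfl h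
      calc ∑ τ, cs σ * cs τ * up1 (fun ρ => c (σ, ρ)) τ
          = cs σ * ∑ τ, cs τ * up1 (fun ρ => if ρ.Nonempty then c (σ, ρ) else 0) τ := by
            rw [mul_sum]
            apply sum_congr rfl
            intro τ _
            have : up1 (fun ρ => if ρ.Nonempty then c (σ, ρ) else 0) τ =
                up1 (fun ρ => c (σ, ρ)) τ := by
              apply up1_congr
              intro v _
              show (if (insert v τ).Nonempty then c (σ, insert v τ) else 0) = _
              rw [if_pos (insert_nonempty _ _)]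
            rw [this]
            ring
        _ = 0 := by rw [h1, mul_zero]
    · apply sum_eq_zero
      intro τ _
      have : cs σ = 0 := if_neg hσ
      simp only [this, zero_mul]
  have ev_up : ev (up c) = 0 := by
    have : ev (up c) = ev (fun x => up1 (fun ρ => c (ρ, x.2)) x.1) +
        ev (fun x => up1 (fun ρ => c (x.1, ρ)) x.2) := by
      rw [← ev_add]
      rfl
    rw [this, ev_up1, ev_up2, add_zero]
  let h : XX n → ZMod 2 := fun x => e x + R 0 (Finsupp.single [x] 1) * Z x
  have hfin : ev Z = ev (up c) + (ev h + ev (fun x => h x.swap)) := by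
    rw [← ev_add, ← ev_add]
    apply ev_congr
    intro x hx
    rw [hce x hx]
    show Z x = (Z x + (R 0 (Finsupp.single [x] 1) + R 0 (swapC (Finsupp.single [x] 1))) * Z x) +
      (e x + e x.swap) + ((e x + R 0 (Finsupp.single [x] 1) * Z x) +
      (e x.swap + R 0 (Finsupp.single [x.swap] 1) * Z x.swap))
    rw [swapC_single, hZs]
    simp only [List.map_cons, List.map_nil]
    have h1 := z2_add_self (R 0 (Finsupp.single [x] 1) * Z x)
    have h2 := z2_add_self (R 0 (Finsupp.single [x.swap] 1) * Z x)
    have h3 := z2_add_self (e x)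
    have h4 := z2_add_self (e x.swap)
    linear_combination - h1 - h2 - h3 - h4
  rw [ev_up, ev_swap h, z2_add_self, add_zero] at hfin
  have hfin2 : ev Z = φ z * φ z := by
    rw [← hcs z (fun σ hσ => (hz1 σ hσ).2)]
    simp only [ev]
    rw [Fintype.sum_prod_type, sum_mul_sum]
    apply sum_congr rfl
    intro σ _
    apply sum_congr rfl
    intro τ _
    show cs σ * cs τ * (z σ * z τ) = _
    ring
  rw [hfin2] at hfin
  rcases mul_eq_zero.1 hfin with h | h
  · exact hφz h
  · exact hφz h

/-- all large degrees -/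
theorem acyc_large {L : Finset (Finset (Fin n))} (hL : Down L) {d : ℕ} (hd : 1 ≤ d)
    {R : ℕ → Fun n} (hR : Smith L d R) : ∀ q, d + 1 ≤ q → Acyc L q := by
  have hbig : ∀ q, n < q → Acyc L q := by
    intro q hq z hz _
    refine ⟨fun _ => 0, fun _ h => absurd rfl h, fun σ => ?_⟩
    rw [up1_zero]
    by_contra h
    have h1 := (hz σ (fun h' => h h'.symm)).2
    have h2 := card_le_univ σ
    rw [Fintype.card_fin] at h2
    omega
  have key : ∀ j q, d + 1 ≤ q → n < q + j → Acyc L q := by
    intro j
    induction j with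
    | zero => intro q _ h; exact hbig q h
    | succ j ih =>
      intro q hq _
      by_cases hj : n < q + j
      · exact ih q hq hj
      obtain ⟨m, rfl⟩ : ∃ m, q = m + 1 := ⟨q - 1, by omega⟩
      apply acyc_of_smith hL hd (by omega) hR
      intro q' hq'
      exact ih q' (by omega) (by omega)
  intro q hq
  exact key (n + 1) q hq (by omega)

end Pool.Agent.R141.MT
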