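import Mathlib
import Pool.Agent.Helper133.BULib

set_option autoImplicit false

/-!
# Index cochains from odd maps

For an odd map without zeros on a symmetric union of convex cells, with values in `ℝ^d`, there are
mod two functionals on chains of lists of points which form a Smith sequence and which vanish on
lists of length `d + 1`.
-/

namespace Pool.Agent.R141.MT

open Finsupp Pool.Agent.Helper133.BU

section Index

variable {V : Type*} [NormedAddCommGroup V] [NormedSpace ℝ V]

/-- the functional -/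
noncomputable def efun (s : V → ZMod 2) (a : V → ℕ) (r q : ℕ) : Chain V →ₗ[ZMod 2] ZMod 2 :=
  (alc s).comp ((sortC a).comp ((sub q : Module.End (ZMod 2) (Chain V)) ^ r))

theorem efun_apply (s : V → ZMod 2) (a : V → ℕ) (r q : ℕ) (c : Chain V) :
    efun s a r q c = alc s (sortC a ((sub q)^[r] c)) := by
  rw [efun, LinearMap.comp_apply, LinearMap.comp_apply, Module.End.pow_apply]

theorem index_exists' {d : ℕ} (hd : 1 ≤ d) (CC : Set (Set V)) (hconv : ∀ C ∈ CC, Convex ℝ C)
    (X : Set V) (hX : IsCompact X) (hsub : ∀ C ∈ CC, C ⊆ X) (hnorm1 : ∀ u ∈ X, ‖u‖ ≤ 1)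
    (f : V → Fin d → ℝ) (hfc : ContinuousOn f X) (hodd : ∀ x, f (-x) = -f x)
    (hcon : ∀ x ∈ X, f x ≠ 0) :
    ∃ E : ℕ → (Chain V →ₗ[ZMod 2] ZMod 2),
      E 0 (single [] 1) = 1 ∧
      (∀ l : List V, ∀ q, l.length = q + 1 → (∃ C ∈ CC, ∀ u ∈ l, u ∈ C) →
        E (q + 1) (single l 1 + nu (single l 1)) = E q (bdL l)) ∧
      (∀ l : List V, l.length = d + 1 → (∃ C ∈ CC, ∀ u ∈ l, u ∈ C) →
        E (d + 1) (single l 1) = 0) := by
  obtain ⟨m, rfl⟩ : ∃ m, d = m + 1 := ⟨d - 1, by omega⟩
  obtain ⟨c, hc, hmin⟩ : ∃ c : ℝ, 0 < c ∧ ∀ x ∈ X, c ≤ ‖f x‖ := by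
    by_cases hne : X.Nonempty
    · obtain ⟨x₀, hx₀, hmin⟩ := hX.exists_isMinOn hne hfc.norm
      exact ⟨‖f x₀‖, norm_pos_iff.mpr (hcon x₀ hx₀), fun x hx => hmin hx⟩
    · exact ⟨1, one_pos, fun x hx => absurd ⟨x, hx⟩ hne⟩
  have huc := hX.uniformContinuousOn_of_continuous hfc
  rw [Metric.uniformContinuousOn_iff] at huc
  obtain ⟨δ, hδ, hδ'⟩ := huc c hc
  have hq : (((m + 2 : ℕ) : ℝ) / ((m + 2 : ℕ) + 1)) < 1 := by
    rw [div_lt_one (by positivity)]
    linarith
  obtain ⟨r, hr⟩ := exists_pow_lt_of_lt_one (show 0 < δ / 2 by positivity) hq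
  let a : V → ℕ := fun x => (arg (fun i => |f x i|) : Fin (m + 1))
  let s : V → ZMod 2 :=
    fun x => if 0 < f x (arg (fun i => |f x i|)) then 1 else 0
  have habs : ∀ x, (fun i => |f (-x) i|) = fun i => |f x i| := by
    intro x; funext i; rw [hodd, Pi.neg_apply, abs_neg]
  have ha : ∀ x, a (-x) = a x := by
    intro x
    simp only [a, habs]
  have hnorm : ∀ x, ‖f x‖ = |f x (arg (fun i => |f x i|))| := by
    intro x
    apply le_antisymm
    · rw [pi_norm_le_iff_of_nonneg (abs_nonneg _)]
      intro i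
      exact arg_spec (fun i => |f x i|) i
    · exact norm_le_pi_norm (f x) _
  have hs : ∀ x ∈ X, s (-x) = s x + 1 := by
    intro x hx
    have h1 := hnorm x
    have h2 : f x (arg (fun i => |f x i|)) ≠ 0 := by
      intro h
      rw [h, abs_zero] at h1
      exact hcon x hx (norm_eq_zero.mp h1)
    simp only [s, habs]
    rw [hodd, Pi.neg_apply]
    rcases lt_or_gt_of_ne h2 with h | h
    · have h3 : ¬ 0 < f x (arg (fun i => |f x i|)) := not_lt.mpr h.le
      have h4 : 0 < -f x (arg (fun i => |f x i|)) := by linarith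
      simp [h3, h4]
    · have h3 : ¬ 0 < -f x (arg (fun i => |f x i|)) := by
        rw [not_lt]; linarith
      simp only [h, h3, if_true, if_false]
      exact (z2_add_self 1).symm
  have hcompl : ∀ x ∈ X, ∀ y ∈ X, dist x y < δ → a x = a y → s x = s y := by
    intro x hx y hy hxy hax
    have hd := hδ' x hx y hy hxy
    have hax' : arg (fun i => |f x i|) = arg (fun i => |f y i|) := Fin.ext hax
    simp only [s]
    rw [← hax']
    have h1 := hnorm x
    have h2 := hnorm y
    rw [← hax'] at h2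
    have h3 := hmin x hx
    have h4 := hmin y hy
    have h5 : |f x (arg (fun i => |f x i|)) - f y (arg (fun i => |f x i|))| < c := by
      rw [dist_eq_norm] at hd
      exact lt_of_le_of_lt (norm_le_pi_norm (f x - f y) _) hd
    set p := f x (arg (fun i => |f x i|))
    set q := f y (arg (fun i => |f x i|))
    have h6 : c ≤ |p| := by rw [← h1]; exact h3
    have h7 : c ≤ |q| := by rw [← h2]; exact h4
    rw [abs_lt] at h5
    rcases le_abs'.mp h6 with h8 | h8 <;> rcases le_abs'.mp h7 with h9 | h9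
    · have e1 : ¬ 0 < p := by linarith
      have e2 : ¬ 0 < q := by linarith
      simp [e1, e2]
    · exfalso; linarith [h5.1]
    · exfalso; linarith [h5.2]
    · have e1 : 0 < p := by linarith
      have e2 : 0 < q := by linarith
      simp [e1, e2]
  have hgood : ∀ l : List V, ∀ q, l.length = q → (∃ C ∈ CC, ∀ u ∈ l, u ∈ C) →
      single l (1 : ZMod 2) ∈ S (fun l => ∃ C ∈ CC, Good q 2 C l) := by
    rintro l q hl ⟨C, hC, hu⟩
    refine single_mem_S ⟨C, hC, hl, hu, fun u hul v hvl => ?_⟩ 1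
    have e1 := hnorm1 u (hsub C hC (hu u hul))
    have e2 := hnorm1 v (hsub C hC (hu v hvl))
    calc ‖u - v‖ ≤ ‖u‖ + ‖v‖ := norm_sub_le _ _
      _ ≤ 2 := by linarith
  refine ⟨fun q => efun s a r q, ?_, ?_, ?_⟩
  · have h0 : ∀ c : Chain V, (sub 0)^[r] c = c := by
      intro c
      clear hr
      induction r with
      | zero => rfl
      | succ r ih => rw [Function.iterate_succ_apply', ih]; rfl
    show efun s a r 0 (single [] 1) = 1
    rw [efun_apply, h0, sortC_single, alc_single]
    simp [al]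
  · intro l q hl hC
    show efun s a r (q + 1) (single l 1 + nu (single l 1)) = efun s a r q (bdL l)
    rw [efun_apply, efun_apply]
    have hm : (sub (q + 1))^[r] (single l (1 : ZMod 2)) ∈
        S (fun l => ∀ v ∈ l, s (-v) = s v + 1) := by
      refine S_mono ?_ (sub_iter_good' (q + 1) r 2 (by norm_num) CC hconv _ (hgood l (q + 1) hl hC))
      rintro l ⟨C, hC, -, hl, -⟩ v hv
      exact hs v (hsub C hC (hl v hv))
    have hbd : bdL l = bd (single l (1 : ZMod 2)) := by rw [bd_single, one_smul]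
    rw [hbd, add_iter, ← nu_iter, map_add, sortC_nu a ha, alc_nu s (sortC_mem a hm), ← alc_bd,
      bd_sortC, bd_iter]
  · intro l hl hC
    show efun s a r (m + 1 + 1) (single l 1) = 0
    rw [efun_apply]
    refine lin_eq_zero ((alc s).comp (sortC a)) ?_
      (sub_iter_good' (m + 2) r 2 (by norm_num) CC hconv _ (hgood l (m + 2) hl hC))
    rintro l ⟨C, hC, hlen, hl, hD⟩
    rw [LinearMap.comp_apply, sortC_single, alc_single, one_mul]
    have hlX : ∀ v ∈ l, v ∈ X := fun v hv => hsub C hC (hl v hv)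
    have hst : Std.Total (fun x y : V => a x ≤ a y) :=
      ⟨fun x y => le_total (a x) (a y)⟩
    have htr : IsTrans V (fun x y => a x ≤ a y) := ⟨fun x y z => le_trans⟩
    have hW : W s (l.insertionSort (fun x y => a x ≤ a y)) = 0 := by
      refine W_zero (m + 1) a s _ ?_ ?_ ?_ (List.pairwise_insertionSort _ l)
      · rw [List.length_insertionSort, hlen]; omega
      · intro v _
        exact (arg (fun i => |f v i|)).2
      · intro u hu v hv
        rw [List.mem_insertionSort] at hu hv
        refine hcompl u (hlX u hu) v (hlX v hv) ?_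
        rw [dist_eq_norm]
        refine lt_of_le_of_lt (hD u hu v hv) ?_
        linarith
    have hlen2 : (l.insertionSort (fun x y => a x ≤ a y)).length = m + 2 := by
      rw [List.length_insertionSort, hlen]
    revert hW hlen2
    generalize l.insertionSort (fun x y => a x ≤ a y) = l'
    intro hW hlen2
    cases l' with
    | nil => simp at hlen2
    | cons x t =>
      simp only [al]
      rw [hW, mul_zero]

/-- the same with oddness on `X` only -/
theorem index_exists {d : ℕ} (hd : 1 ≤ d) (CC : Set (Set V)) (hconv : ∀ C ∈ CC, Convex ℝ C)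
    (X : Set V) (hX : IsCompact X) (hXneg : ∀ x ∈ X, -x ∈ X) (hsub : ∀ C ∈ CC, C ⊆ X)
    (hnorm1 : ∀ u ∈ X, ‖u‖ ≤ 1)
    (f : V → Fin d → ℝ) (hfc : ContinuousOn f X) (hodd : ∀ x ∈ X, f (-x) = -f x)
    (hcon : ∀ x ∈ X, f x ≠ 0) :
    ∃ E : ℕ → (Chain V →ₗ[ZMod 2] ZMod 2),
      E 0 (single [] 1) = 1 ∧
      (∀ l : List V, ∀ q, l.length = q + 1 → (∃ C ∈ CC, ∀ u ∈ l, u ∈ C) →
        E (q + 1) (single l 1 + nu (single l 1)) = E q (bdL l)) ∧
      (∀ l : List V, l.length = d + 1 → (∃ C ∈ CC, ∀ u ∈ l, u ∈ C) →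
        E (d + 1) (single l 1) = 0) := by
  refine index_exists' hd CC hconv X hX hsub hnorm1 (fun x => f x - f (-x)) ?_ ?_ ?_
  · refine hfc.sub (hfc.comp continuous_neg.continuousOn ?_)
    intro x hx
    exact hXneg x hx
  · intro x
    simp only [neg_neg]
    abel
  · intro x hx h
    have e := hodd x hx
    rw [e, sub_neg_eq_add] at h
    apply hcon x hx
    funext i
    have := congrFun h i
    simp only [Pi.add_apply, Pi.zero_apply] at this ⊢
    linarith

end Index

end Pool.Agent.R141.MT
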