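import Mathlib
import Pool.Agent.R141.MT.Alg

set_option autoImplicit false

/-!
# From mod two homology to rational homology
-/

namespace Pool.Agent.R141.MT

open Finset Pool.Agent.Helper133.BU

variable {n : ℕ}

/-- the sign of `v` relative to `σ` -/
def sgn (v : Fin n) (σ : Finset (Fin n)) : ℤ := (-1) ^ (σ.filter (fun w => w < v)).card

/-- the simplicial boundary: the coefficient of the face `σ` in the boundary of the chain `c` -/
def bdry {A : Type} [Ring A] (c : Finset (Fin n) → A) (σ : Finset (Fin n)) : A :=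
  ∑ v ∈ σᶜ, (sgn v σ : A) * c (insert v σ)

/-- `c` is a chain of faces of `L` with `q` elements -/
def IsChain {A : Type} [Ring A] (L : Finset (Finset (Fin n))) (q : ℕ)
    (c : Finset (Fin n) → A) : Prop :=
  ∀ σ, c σ ≠ 0 → σ ∈ L ∧ σ.card = q

/-- exactness of the augmented chain complex at the faces with `q` elements -/
def AcycR (A : Type) [Ring A] (L : Finset (Finset (Fin n))) (q : ℕ) : Prop :=
  ∀ z : Finset (Fin n) → A, IsChain L q z → (∀ σ, bdry z σ = 0) →
    ∃ u : Finset (Fin n) → A, IsChain L (q + 1) u ∧ ∀ σ, bdry u σ = z σ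

theorem bdry_add {A : Type} [Ring A] (c e : Finset (Fin n) → A) (σ : Finset (Fin n)) :
    bdry (fun τ => c τ + e τ) σ = bdry c σ + bdry e σ := by
  simp only [bdry, mul_add, sum_add_distrib]

theorem bdry_mul {A : Type} [CommRing A] (a : A) (c : Finset (Fin n) → A) (σ : Finset (Fin n)) :
    bdry (fun τ => a * c τ) σ = a * bdry c σ := by
  simp only [bdry, mul_sum]
  apply sum_congr rfl
  intro v _
  ring

theorem bdry_zero {A : Type} [Ring A] (σ : Finset (Fin n)) :
    bdry (fun _ => (0 : A)) σ = 0 := by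
  simp [bdry]

theorem bdry_two (c : Finset (Fin n) → ℤ) (σ : Finset (Fin n)) :
    ((bdry c σ : ℤ) : ZMod 2) = up1 (fun τ => ((c τ : ℤ) : ZMod 2)) σ := by
  unfold bdry up1
  rw [Int.cast_sum]
  apply sum_congr rfl
  intro v _
  rw [Int.cast_mul, sgn]
  push_cast
  rw [show (-1 : ZMod 2) = 1 from rfl, one_pow, one_mul]

theorem bdry_cast (c : Finset (Fin n) → ℤ) (σ : Finset (Fin n)) :
    ((bdry c σ : ℤ) : ℚ) = bdry (fun τ => ((c τ : ℤ) : ℚ)) σ := by
  unfold bdry
  rw [Int.cast_sum]
  apply sum_congr rfl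
  intro v _
  rw [Int.cast_mul]
  rfl

theorem bdry_bdry (c : Finset (Fin n) → ℤ) (σ : Finset (Fin n)) : bdry (bdry c) σ = 0 := by
  unfold bdry
  simp_rw [mul_sum]
  rw [sum_sigma']
  apply sum_involution (fun (x : (_ : Fin n) × Fin n) _ => (⟨x.2, x.1⟩ : (_ : Fin n) × Fin n))
  · rintro ⟨v, w⟩ h
    simp only [mem_sigma, mem_compl, mem_insert, not_or] at h
    obtain ⟨hv, hwv, hw⟩ := h
    show sgn v σ * (sgn w (insert v σ) * c (insert w (insert v σ))) +
      sgn w σ * (sgn v (insert w σ) * c (insert v (insert w σ))) = 0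
    rw [insert_comm v w σ]
    have key : ∀ a b : Fin n, a < b → a ∉ σ →
        sgn b (insert a σ) = - sgn b σ ∧ sgn a (insert b σ) = sgn a σ := by
      intro a b hab ha
      constructor
      · unfold sgn
        rw [filter_insert, if_pos hab, card_insert_of_notMem, pow_succ]
        · ring
        · intro h
          exact ha (mem_filter.1 h).1
      · unfold sgn
        rw [filter_insert, if_neg (not_lt_of_gt hab)]
    rcases lt_or_gt_of_ne hwv with h | h
    · obtain ⟨e1, e2⟩ := key w v h hw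
      rw [e1, e2]
      ring
    · obtain ⟨e1, e2⟩ := key v w h hv
      rw [e1, e2]
      ring
  · rintro ⟨v, w⟩ h _ heq
    simp only [mem_sigma, mem_compl, mem_insert, not_or] at h
    have : w = v := congrArg Sigma.fst heq
    exact h.2.1 this
  · rintro ⟨v, w⟩ h
    simp only [mem_sigma, mem_compl, mem_insert, not_or] at h ⊢
    exact ⟨h.2.2, fun h' => h.2.1 h'.symm, h.1⟩
  · rintro ⟨v, w⟩ _
    rfl

theorem acycQ {L : Finset (Finset (Fin n))} (hL : Down L) {q : ℕ} (h : Acyc L q) :
    AcycR ℚ L q := by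
  -- integral cycles and boundaries
  let Zq : Submodule ℤ (Finset (Fin n) → ℤ) :=
    { carrier := {z | IsChain L q z ∧ ∀ σ, bdry z σ = 0}
      add_mem' := by
        rintro z z' ⟨h1, h2⟩ ⟨h1', h2'⟩
        refine ⟨fun σ hσ => ?_, fun σ => ?_⟩
        · by_cases h3 : z σ = 0
          · by_cases h4 : z' σ = 0
            · exact absurd (by rw [Pi.add_apply, h3, h4, add_zero]) hσ
            · exact h1' σ h4
          · exact h1 σ h3
        · have := bdry_add z z' σ
          rw [h2, h2', add_zero] at this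
          exact this
      zero_mem' := ⟨fun _ h => absurd rfl h, fun σ => bdry_zero σ⟩
      smul_mem' := by
        rintro a z ⟨h1, h2⟩
        refine ⟨fun σ hσ => h1 σ (right_ne_zero_of_mul hσ), fun σ => ?_⟩
        have := bdry_mul a z σ
        rw [h2, mul_zero] at this
        exact this }
  let Bq : Submodule ℤ (Finset (Fin n) → ℤ) :=
    { carrier := {w | ∃ u : Finset (Fin n) → ℤ, IsChain L (q + 1) u ∧ ∀ σ, bdry u σ = w σ}
      add_mem' := by
        rintro w w' ⟨u, h1, h2⟩ ⟨u', h1', h2'⟩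
        refine ⟨fun σ => u σ + u' σ, fun σ hσ => ?_, fun σ => ?_⟩
        · by_cases h3 : u σ = 0
          · by_cases h4 : u' σ = 0
            · exact absurd (by simp only [h3, h4, add_zero]) hσ
            · exact h1' σ h4
          · exact h1 σ h3
        · rw [bdry_add, h2, h2']
          rfl
      zero_mem' := ⟨fun _ => 0, fun _ h => absurd rfl h, fun σ => bdry_zero σ⟩
      smul_mem' := by
        rintro a w ⟨u, h1, h2⟩
        refine ⟨fun σ => a * u σ, fun σ hσ => h1 σ (right_ne_zero_of_mul hσ), fun σ => ?_⟩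
        rw [bdry_mul, h2]
        rfl }
  have key : ∀ z ∈ Zq, ∃ b ∈ Bq, ∃ z' ∈ Zq, z = b + (2 : ℤ) • z' := by
    rintro z ⟨hz1, hz2⟩
    obtain ⟨u, hu1, hu2⟩ := h (fun σ => ((z σ : ℤ) : ZMod 2))
      (fun σ hσ => hz1 σ (fun h0 => hσ (by simp only [h0, Int.cast_zero])))
      (fun σ => by rw [← bdry_two, hz2, Int.cast_zero])
    let U : Finset (Fin n) → ℤ := fun σ => if u σ = 0 then 0 else 1
    have hU : ∀ σ, ((U σ : ℤ) : ZMod 2) = u σ := by
      intro σ
      simp only [U]
      by_cases h0 : u σ = 0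
      · rw [if_pos h0, h0, Int.cast_zero]
      · rw [if_neg h0, Int.cast_one]
        have : ∀ t : ZMod 2, t ≠ 0 → 1 = t := by decide
        exact this _ h0
    have hU1 : IsChain L (q + 1) U := by
      intro σ hσ
      apply hu1
      intro h0
      apply hσ
      simp only [U]
      rw [if_pos h0]
    have hdiv : ∀ σ, ∃ t : ℤ, z σ - bdry U σ = 2 * t := by
      intro σ
      have h1 : (((z σ - bdry U σ : ℤ)) : ZMod 2) = 0 := by
        rw [Int.cast_sub, bdry_two]
        simp_rw [hU]
        rw [show (fun τ => u τ) = u from rfl, hu2 σ, sub_self]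
      rw [ZMod.intCast_zmod_eq_zero_iff_dvd] at h1
      exact h1
    choose t ht using hdiv
    refine ⟨bdry U, ⟨U, hU1, fun _ => rfl⟩, t, ⟨?_, ?_⟩, ?_⟩
    · intro σ hσ
      have h2 : z σ - bdry U σ ≠ 0 := by
        rw [ht]
        exact mul_ne_zero two_ne_zero hσ
      by_cases h3 : z σ = 0
      · rw [h3, zero_sub, neg_ne_zero] at h2
        -- use the mod two statement: `bdry U σ` is a boundary supported on `q` elements
        obtain ⟨v, hv, hv'⟩ := exists_ne_zero_of_sum_ne_zero h2
        obtain ⟨h4, h5⟩ := hU1 _ (right_ne_zero_of_mul hv')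
        rw [mem_compl] at hv
        rw [card_insert_of_notMem hv] at h5
        exact ⟨hL _ h4 _ (subset_insert _ _), by omega⟩
      · exact hz1 σ h3
    · intro σ
      have h2 : (2 : ℤ) * bdry t σ = 0 := by
        rw [← bdry_mul]
        have h3 : (fun τ => (2 : ℤ) * t τ) = fun τ => z τ + (-1) * bdry U τ := by
          funext τ
          rw [← ht]
          ring
        rw [h3, bdry_add, bdry_mul, hz2]
        have := bdry_bdry U σ
        have h4 : bdry (fun τ => bdry U τ) σ = 0 := this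
        rw [h4]
        ring
      exact (mul_eq_zero.1 h2).resolve_left two_ne_zero
    · funext σ
      rw [Pi.add_apply, Pi.smul_apply, smul_eq_mul, ← ht]
      ring
  -- Nakayama
  obtain ⟨r, hr1, hr2⟩ := Submodule.exists_sub_one_mem_and_smul_eq_zero_of_fg_of_le_smul
    (Ideal.span {(2 : ℤ)}) (Zq.map Bq.mkQ) (IsNoetherian.noetherian _) (by
      rintro _ ⟨z, hz, rfl⟩
      obtain ⟨b, hb, z', hz', hzb⟩ := key z hz
      rw [hzb, map_add, map_smul, (Submodule.mkQ_apply Bq b), (Submodule.Quotient.mk_eq_zero Bq).2 hb,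
        zero_add]
      exact Submodule.smul_mem_smul (Ideal.subset_span rfl) (Submodule.mem_map_of_mem hz'))
  have hr0 : r ≠ 0 := by
    rintro rfl
    rw [Ideal.mem_span_singleton] at hr1
    omega
  have hrB : ∀ z ∈ Zq, r • z ∈ Bq := by
    intro z hz
    have := hr2 _ (Submodule.mem_map_of_mem hz)
    rw [← map_smul, Submodule.mkQ_apply, Submodule.Quotient.mk_eq_zero] at this
    exact this
  intro z hz1 hz2
  -- clear the denominators
  obtain ⟨D, hD⟩ : ∃ D : ℤ, D = ∏ σ, ((z σ).den : ℤ) := ⟨_, rfl⟩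
  have hD0 : (D : ℚ) ≠ 0 := by
    rw [hD]
    push_cast
    exact prod_ne_zero_iff.2 (fun σ _ => by
      have := (z σ).den_nz
      exact_mod_cast this)
  have hint : ∀ σ, ∃ t : ℤ, (t : ℚ) = D * z σ := by
    intro σ
    have h1 : ((z σ).den : ℤ) ∣ D := by
      rw [hD]
      exact dvd_prod_of_mem _ (mem_univ σ)
    obtain ⟨k, hk⟩ := h1
    refine ⟨k * (z σ).num, ?_⟩
    have h2 : ((z σ).den : ℚ) * z σ = (z σ).num := by
      rw [mul_comm]
      exact Rat.mul_den_eq_num (z σ)
    rw [hk]
    push_cast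
    linear_combination (-(k : ℚ)) * h2
  choose t ht using hint
  have htZ : t ∈ Zq := by
    refine ⟨fun σ hσ => hz1 σ (fun h0 => hσ ?_), fun σ => ?_⟩
    · have := ht σ
      rw [h0, mul_zero] at this
      exact_mod_cast this
    · have h1 : ((bdry t σ : ℤ) : ℚ) = 0 := by
        rw [bdry_cast]
        simp_rw [ht]
        rw [bdry_mul, hz2, mul_zero]
      exact_mod_cast h1
  obtain ⟨u, hu1, hu2⟩ := hrB t htZ
  have hr0' : (r : ℚ) ≠ 0 := by exact_mod_cast hr0
  refine ⟨fun σ => ((r : ℚ) * D)⁻¹ * (u σ : ℚ), fun σ hσ => ?_, fun σ => ?_⟩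
  · apply hu1
    intro h0
    apply hσ
    simp only [h0, Int.cast_zero, mul_zero]
  · rw [bdry_mul, ← bdry_cast, hu2]
    rw [Pi.smul_apply, smul_eq_mul, Int.cast_mul, ht]
    field_simp

end Pool.Agent.R141.MT
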